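import Mathlib
import Pool.Agent.CDP.ENDM

namespace Pool.Agent.Results.MP_171b0e_pr.MonotoneInConstraint

open Pool.Agent.CDP

/-- Constrained-degree percolation on the lattice `ℤ^d` with i.i.d. uniform labels:
for all `κ` and `d` almost every labelling has exactly one family of accepted edges, and the
critical time does not increase when the constraint goes from `κ` to `κ + 1`, for every
dimension `d` and every `κ ≥ 18`. -/
theorem result :
    (∀ κ d : ℕ, ∀ᵐ U ∂(labels d), ∃! ω : Ed d → Prop, IsCDP κ U ω) ∧
    ∀ κ d : ℕ, 18 ≤ κ → tc (κ + 1) d ≤ tc κ d :=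
  main

end Pool.Agent.Results.MP_171b0e_pr.MonotoneInConstraint
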